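import Pool.Agent.H430.Ot.Riem
import Pool.Graph.R_pool_sql_team_seeded_3dad9d7b.NH28.Cnt

/-!
The asymptotic form of the sums over the exponents.
-/

set_option autoImplicit false

namespace Pool.Agent.H430.Ot

open MeasureTheory Finset Filter Topology
open Pool.Agent.TH875 (Sm mem_Sm dg)
open Pool.Agent.NH28 (card_compare)

/-- the error in the upper bound -/
noncomputable def eup (ν B T : ℕ) : ℝ :=
  2 * ((1 + (ν : ℝ) / T) ^ ν - 1) + (B + 2 * ν) / T * (1 + (ν : ℝ) / T) ^ ν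

/-- the relative error -/
noncomputable def kap (ν B T : ℕ) : ℝ := (1 + eup ν B T) / (1 - (B : ℝ) / T) ^ ν - 1

/-- the relative error for the dimension -/
noncomputable def rhd (ν B t0 T : ℕ) : ℝ := (((T : ℝ) + t0 - B + 1) / ((T : ℝ) - B + 1)) ^ ν - 1

lemma tendsto_kap (ν B : ℕ) : Tendsto (fun T : ℕ => kap ν B T) atTop (𝓝 0) := by
  have hT : Tendsto (fun T : ℕ => (T : ℝ)) atTop atTop := tendsto_natCast_atTop_atTop
  have hc : ∀ c : ℝ, Tendsto (fun T : ℕ => c / (T : ℝ)) atTop (𝓝 0) := fun c =>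
    tendsto_const_nhds.div_atTop hT
  have h1 : Tendsto (fun T : ℕ => (1 + (ν : ℝ) / T) ^ ν) atTop (𝓝 1) := by
    have := ((tendsto_const_nhds (x := (1 : ℝ))).add (hc ν)).pow ν
    simpa using this
  have h2 : Tendsto (fun T : ℕ => eup ν B T) atTop (𝓝 0) := by
    have h3 := ((h1.sub_const 1).const_mul 2).add ((hc (B + 2 * ν)).mul h1)
    simpa [eup] using h3
  have h4 : Tendsto (fun T : ℕ => (1 - (B : ℝ) / T) ^ ν) atTop (𝓝 1) := by
    have := ((tendsto_const_nhds (x := (1 : ℝ))).sub (hc B)).pow ν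
    simpa using this
  have h5 := (((tendsto_const_nhds (x := (1 : ℝ))).add h2).div h4 one_ne_zero).sub_const 1
  simpa [kap] using h5

lemma tendsto_rhd (ν B t0 : ℕ) : Tendsto (fun T : ℕ => rhd ν B t0 T) atTop (𝓝 0) := by
  have hT : Tendsto (fun T : ℕ => (T : ℝ)) atTop atTop := tendsto_natCast_atTop_atTop
  have hc : ∀ c : ℝ, Tendsto (fun T : ℕ => c / (T : ℝ)) atTop (𝓝 0) := fun c =>
    tendsto_const_nhds.div_atTop hT
  have h1 : Tendsto (fun T : ℕ => (1 + ((t0 : ℝ) - B + 1) / T) / (1 + (1 - (B : ℝ)) / T)) atTop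
      (𝓝 1) := by
    have h2 := (tendsto_const_nhds (x := (1 : ℝ))).add (hc ((t0 : ℝ) - B + 1))
    have h3 := (tendsto_const_nhds (x := (1 : ℝ))).add (hc (1 - (B : ℝ)))
    rw [add_zero] at h2 h3
    have := h2.div h3 one_ne_zero
    rwa [div_one] at this
  have h2 := (h1.pow ν).sub_const 1
  rw [one_pow, sub_self] at h2
  refine h2.congr' ?_
  filter_upwards [eventually_gt_atTop B] with T hTB
  have hTR : (B : ℝ) < T := by exact_mod_cast hTB
  have hB0 : (0 : ℝ) ≤ B := Nat.cast_nonneg _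
  have hT0 : (T : ℝ) ≠ 0 := by linarith
  unfold rhd
  congr 2
  have e1 : (1 : ℝ) + ((t0 : ℝ) - B + 1) / T = (T + t0 - B + 1) / T := by
    field_simp
    ring
  have e2 : (1 : ℝ) + (1 - (B : ℝ)) / T = (T - B + 1) / T := by
    field_simp
    ring
  rw [e1, e2, div_div_div_cancel_right₀ hT0]

/-- one layer -/
lemma layer_sum {ν T m B : ℕ} (hBT : B < T) (hm : m ≤ T) (hB : T ≤ m + B)
    (A : Finset (Fin (ν + 1) → ℕ)) (hA : ∀ s, s ∈ A ↔ ∑ k, s k = m)
    (F : (Fin (ν + 1) → ℝ) → ℝ)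
    (M : ℝ) (hM : 0 ≤ M) (hF0 : ∀ u, 0 ≤ F u) (hFc : Continuous F)
    (hFl : ∀ u u', F u ≤ F u' + M * ∑ k, |u k - u' k|)
    (hFb : ∀ t ∈ sxc ν (1 + ν / T), F (bar t) ≤ 2 * M)
    (hF1 : ∀ t ∈ sxc ν 1, F (bar t) ≤ M) :
    ∑ s ∈ A, F (fun k => (s k : ℝ) / T) ≤ A.card * (mean ν F + kap ν B T * M) := by
  have hT : 0 < T := by omega
  have hm0 : 0 < m := by omega
  have hT' : (0 : ℝ) < T := by exact_mod_cast hT
  have hBT' : (B : ℝ) < T := by exact_mod_cast hBT
  have hV := vol_pos ν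
  set V := volume.real (sxc ν 1) with hVd
  have h1 := riem_upper hT hm hB A (fun s hs => (hA s).1 hs) F M hM hF0 hFc hFl hFb
  have h2 := riem_lower hT hm0 A fun s hs => (hA s).2 hs
  have hI : ∫ t in sxc ν 1, F (bar t) = V * mean ν F := by
    unfold mean
    rw [setAverage_eq, smul_eq_mul, mul_inv_cancel_left₀ hV.ne']
  have hFi : IntegrableOn (fun t => F (bar t)) (sxc ν 1) :=
    (hFc.comp continuous_bar).continuousOn.integrableOn_compact (isCompact_sxc ν 1)
  have hmean : mean ν F ≤ M := by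
    have h3 : ∫ t in sxc ν 1, F (bar t) ≤ ∫ _t in sxc ν 1, M :=
      setIntegral_mono_on hFi (integrableOn_const (vol_fin ν 1)) (meas_sxc ν 1) hF1
    rw [hI, setIntegral_const, smul_eq_mul] at h3
    exact le_of_mul_le_mul_left h3 hV
  have hmean0 : 0 ≤ mean ν F := by
    have h3 : 0 ≤ ∫ t in sxc ν 1, F (bar t) := integral_nonneg fun t => hF0 _
    rw [hI] at h3
    exact nonneg_of_mul_nonneg_right h3 hV
  set q : ℝ := (1 - (B : ℝ) / T) ^ ν with hq
  have hq0 : 0 < q := by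
    rw [hq]
    have : (B : ℝ) / T < 1 := (div_lt_one hT').2 hBT'
    exact pow_pos (by linarith) _
  have hq1 : q ≤ 1 := by
    rw [hq]
    have h3 : (B : ℝ) / T < 1 := (div_lt_one hT').2 hBT'
    have h4 : (0 : ℝ) ≤ (B : ℝ) / T := by positivity
    exact pow_le_one₀ (by linarith) (by linarith)
  have h3 : q * V ≤ A.card * (1 / (T : ℝ)) ^ ν := by
    refine le_trans (mul_le_mul_of_nonneg_right ?_ hV.le) h2
    rw [hq]
    have h4 : (B : ℝ) / T < 1 := (div_lt_one hT').2 hBT'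
    refine pow_le_pow_left₀ (by linarith) ?_ _
    have h5 : (T : ℝ) ≤ m + B := by exact_mod_cast hB
    rw [sub_le_iff_le_add, ← add_div, le_div_iff₀ hT', one_mul]
    exact h5
  rw [← sum_mul, hI] at h1
  set X := ∑ s ∈ A, F (fun k => (s k : ℝ) / T) with hX
  have hκ : q * kap ν B T = 1 + eup ν B T - q := by
    unfold kap
    rw [← hq, mul_sub, mul_div_cancel₀ _ hq0.ne', mul_one]
  have he : X * (1 / (T : ℝ)) ^ ν ≤ V * (mean ν F + eup ν B T * M) := by
    refine h1.trans (le_of_eq ?_)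
    unfold eup
    ring
  have hκ0 : 0 ≤ mean ν F + kap ν B T * M := by
    have h4 : 0 ≤ q * (mean ν F + kap ν B T * M) := by
      rw [mul_add, ← mul_assoc, hκ]
      have h5 : 0 ≤ eup ν B T := by
        unfold eup
        have h6 : (1 : ℝ) ≤ (1 + (ν : ℝ) / T) ^ ν := one_le_pow₀ (by
          have : (0 : ℝ) ≤ (ν : ℝ) / T := by positivity
          linarith)
        have h7 : (0 : ℝ) ≤ (B + 2 * ν) / T * (1 + (ν : ℝ) / T) ^ ν := by positivity
        linarith
      have h6 : 0 ≤ (1 + eup ν B T - q) * M := mul_nonneg (by linarith) hM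
      have h7 : 0 ≤ q * mean ν F := mul_nonneg hq0.le hmean0
      linarith
    exact nonneg_of_mul_nonneg_right h4 hq0
  have h4 : V * (mean ν F + eup ν B T * M) ≤ (q * V) * (mean ν F + kap ν B T * M) := by
    have h5 : (q * V) * (mean ν F + kap ν B T * M) =
        V * (q * mean ν F + (q * kap ν B T) * M) := by ring
    rw [h5, hκ]
    refine mul_le_mul_of_nonneg_left ?_ hV.le
    have h6 : 0 ≤ (1 - q) * (M - mean ν F) := mul_nonneg (by linarith) (by linarith)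
    linarith
  have h5 : X * (1 / (T : ℝ)) ^ ν ≤
      (A.card * (mean ν F + kap ν B T * M)) * (1 / (T : ℝ)) ^ ν := by
    refine he.trans (h4.trans ((mul_le_mul_of_nonneg_right h3 hκ0).trans (le_of_eq ?_)))
    ring
  exact le_of_mul_le_mul_right h5 (by positivity)

lemma Sm_sum {n ν T B D : ℕ} (hD : 1 ≤ D) (hBT : B < T) (E : Finset (Fin n →₀ ℕ))
    (hE : ∀ β ∈ E, β.degree ≤ D * B)
    (F : (Fin (ν + 1) → ℝ) → ℝ)
    (M : ℝ) (hM : 0 ≤ M) (hF0 : ∀ u, 0 ≤ F u) (hFc : Continuous F)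
    (hFl : ∀ u u', F u ≤ F u' + M * ∑ k, |u k - u' k|)
    (hFb : ∀ t ∈ sxc ν (1 + ν / T), F (bar t) ≤ 2 * M)
    (hF1 : ∀ t ∈ sxc ν 1, F (bar t) ≤ M) :
    ∑ s ∈ Sm D E (ν + 1) (D * T), F (fun k => (s.1 k : ℝ) / T) ≤
      (Sm D E (ν + 1) (D * T)).card * (mean ν F + kap ν B T * M) := by
  classical
  have hmaps : ∀ s ∈ Sm D E (ν + 1) (D * T), s.2 ∈ E := fun s hs => ((mem_Sm hD E _ s).1 hs).1
  rw [← sum_fiberwise_of_maps_to hmaps, card_eq_sum_card_fiberwise hmaps]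
  push_cast
  rw [sum_mul]
  refine sum_le_sum fun β hβ => ?_
  set Sβ := (Sm D E (ν + 1) (D * T)).filter (fun s => s.2 = β) with hSβ
  rcases Sβ.eq_empty_or_nonempty with h0 | ⟨s0, hs0⟩
  · rw [h0]
    simp
  have hs0' := (mem_filter.1 hs0)
  have h1 := ((mem_Sm hD E _ s0).1 hs0'.1).2
  unfold dg at h1
  rw [hs0'.2] at h1
  have hdvd : D ∣ β.degree := by
    have h2 : D ∣ D * ∑ i, s0.1 i + β.degree := h1 ▸ dvd_mul_right D T
    exact (Nat.dvd_add_right (dvd_mul_right D _)).1 h2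
  obtain ⟨c, hc⟩ := hdvd
  have hcB : c ≤ B := by
    have h2 := hE β hβ
    rw [hc] at h2
    exact Nat.le_of_mul_le_mul_left h2 (by omega)
  have hsum : ∀ s : (Fin (ν + 1) → ℕ) × (Fin n →₀ ℕ), s ∈ Sβ ↔ s.2 = β ∧ ∑ k, s.1 k = T - c := by
    intro s
    rw [hSβ, mem_filter, mem_Sm hD]
    constructor
    · rintro ⟨⟨h2, h3⟩, h4⟩
      refine ⟨h4, ?_⟩
      unfold dg at h3
      rw [h4, hc, ← mul_add] at h3
      have h5 := Nat.eq_of_mul_eq_mul_left (by omega : 0 < D) h3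
      omega
    · rintro ⟨h2, h3⟩
      refine ⟨⟨by rw [h2]; exact hβ, ?_⟩, h2⟩
      unfold dg
      rw [h2, h3, hc, ← mul_add]
      congr 1
      omega
  have hinj : Set.InjOn Prod.fst (Sβ : Set ((Fin (ν + 1) → ℕ) × (Fin n →₀ ℕ))) := by
    intro s hs s' hs' h
    have h2 := ((hsum s).1 hs).1
    have h3 := ((hsum s').1 hs').1
    exact Prod.ext h (h2.trans h3.symm)
  have h2 := layer_sum (m := T - c) hBT (by omega) (by omega) (Sβ.image Prod.fst) (fun s => by
    rw [mem_image]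
    constructor
    · rintro ⟨s', hs', rfl⟩
      exact ((hsum s').1 hs').2
    · intro hs
      exact ⟨(s, β), (hsum _).2 ⟨rfl, hs⟩, rfl⟩) F M hM hF0 hFc hFl hFb hF1
  rw [sum_image hinj, card_image_of_injOn hinj] at h2
  exact h2

lemma continuous_pm {X σ : Type} [TopologicalSpace X] (W : Finset σ) (f : σ → X → ℝ)
    (hf : ∀ w, Continuous (f w)) : Continuous fun x => pm W fun w => f w x := by
  unfold pm
  refine NNReal.continuous_coe.comp ?_
  exact Continuous.finset_sup_apply fun w _ => continuous_real_toNNReal.comp (hf w)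

/-- the asymptotic form of the sums -/
theorem riem (ν B t0 : ℕ) (ε : ℝ) (hε : 0 < ε) : ∀ᶠ T : ℕ in atTop, ∀ (n D : ℕ), 1 ≤ D →
    ∀ E : Finset (Fin n →₀ ℕ), (∀ β ∈ E, β.degree ≤ D * B) → ∀ N : ℕ,
    (Sm D E (ν + 1) (D * T)).card ≤ N → N ≤ (Sm D E (ν + 1) (D * (T + t0))).card →
    ∀ (σ : Type) (W : Finset σ) (b : σ → ℝ) (Λ : σ → Fin (ν + 1) → ℝ) (M : ℝ), 0 ≤ M →
    (∀ w ∈ W, b w ≤ M) → (∀ w ∈ W, ∀ k, 0 ≤ Λ w k) → (∀ w ∈ W, ∀ k, Λ w k ≤ M) →
    ∑ s ∈ Sm D E (ν + 1) (D * T), pm W (fun w => T * b w - ∑ k, (s.1 k : ℝ) * Λ w k) +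
      ((N : ℝ) - (Sm D E (ν + 1) (D * T)).card) * pm W (fun w => T * b w) ≤
      N * (T * (mean ν (fun u => pm W fun w => b w - ∑ k, u k * Λ w k) + ε * M)) := by
  have hk := (tendsto_kap ν B).eventually_le_const (show (0 : ℝ) < ε / 2 by positivity)
  have hr := (tendsto_rhd ν B t0).eventually_le_const (show (0 : ℝ) < ε / 2 by positivity)
  filter_upwards [hk, hr, eventually_gt_atTop B, eventually_ge_atTop ν, eventually_gt_atTop 0] with
    T hκ hρ hBT hνT hT0 n D hD E hE N hN1 hN2 σ W b Λ M hM hb hΛ0 hΛ1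
  have hT' : (0 : ℝ) < T := by exact_mod_cast hT0
  have hBT' : (B : ℝ) < T := by exact_mod_cast hBT
  have hνT' : (ν : ℝ) ≤ T := by exact_mod_cast hνT
  set F : (Fin (ν + 1) → ℝ) → ℝ := fun u => pm W fun w => b w - ∑ k, u k * Λ w k with hF
  have hF0 : ∀ u, 0 ≤ F u := fun u => pm_nonneg _ _
  have hFc : Continuous F :=
    continuous_pm W (fun (w : σ) (u : Fin (ν + 1) → ℝ) => b w - ∑ k, u k * Λ w k) fun w =>
      continuous_const.sub (continuous_finsetSum _ fun k _ =>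
        (continuous_apply k).mul continuous_const)
  have hFl : ∀ u u', F u ≤ F u' + M * ∑ k, |u k - u' k| := by
    intro u u'
    refine pm_le_add (mul_nonneg hM (sum_nonneg fun k _ => abs_nonneg _)) fun w hw => ?_
    have h1 : ∑ k, u' k * Λ w k - ∑ k, u k * Λ w k ≤ M * ∑ k, |u k - u' k| := by
      rw [← sum_sub_distrib, mul_sum]
      refine sum_le_sum fun k _ => ?_
      have h2 : u' k * Λ w k - u k * Λ w k = (u' k - u k) * Λ w k := by ring
      rw [h2]
      refine (mul_le_mul_of_nonneg_right (le_abs_self _) (hΛ0 w hw k)).trans ?_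
      rw [abs_sub_comm, mul_comm]
      exact mul_le_mul_of_nonneg_right (hΛ1 w hw k) (abs_nonneg _)
    linarith
  have hFb : ∀ t ∈ sxc ν (1 + ν / T), F (bar t) ≤ 2 * M := by
    rintro t ⟨ht1, ht2⟩
    refine pm_le (by linarith) fun w hw => ?_
    rw [Fin.sum_univ_succ, bar_zero]
    simp only [bar_succ]
    have h1 : 0 ≤ ∑ k : Fin ν, t k * Λ w k.succ :=
      sum_nonneg fun k _ => mul_nonneg (ht1 k) (hΛ0 w hw _)
    have h2 : (ν : ℝ) / T ≤ 1 := (div_le_one hT').2 hνT'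
    have h3 : (-1 : ℝ) ≤ 1 - ∑ k, t k := by linarith
    have h4 := mul_le_mul_of_nonneg_right h3 (hΛ0 w hw 0)
    have h5 := hΛ1 w hw 0
    have h6 := hb w hw
    linarith
  have hF1 : ∀ t ∈ sxc ν 1, F (bar t) ≤ M := by
    rintro t ⟨ht1, ht2⟩
    refine pm_le hM fun w hw => ?_
    rw [Fin.sum_univ_succ, bar_zero]
    simp only [bar_succ]
    have h1 : 0 ≤ ∑ k : Fin ν, t k * Λ w k.succ :=
      sum_nonneg fun k _ => mul_nonneg (ht1 k) (hΛ0 w hw _)
    have h4 := mul_nonneg (sub_nonneg.2 ht2) (hΛ0 w hw 0)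
    have h6 := hb w hw
    linarith
  have hmean0 : 0 ≤ mean ν F := by
    unfold mean
    rw [setAverage_eq, smul_eq_mul]
    exact mul_nonneg (inv_nonneg.2 measureReal_nonneg) (integral_nonneg fun t => hF0 _)
  have h1 := Sm_sum hD hBT E hE F M hM hF0 hFc hFl hFb hF1
  set cd : ℝ := ((Sm D E (ν + 1) (D * T)).card : ℝ) with hcd
  have hcd0 : 0 ≤ cd := Nat.cast_nonneg _
  have hcdN : cd ≤ N := by
    rw [hcd]
    exact_mod_cast hN1
  have hN0 : (0 : ℝ) ≤ N := Nat.cast_nonneg _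
  have h2 : ∀ s : Fin (ν + 1) → ℕ, pm W (fun w => T * b w - ∑ k, (s k : ℝ) * Λ w k) =
      T * F (fun k => (s k : ℝ) / T) := by
    intro s
    rw [hF]
    simp only
    rw [← pm_mul _ hT']
    congr 1
    funext w
    rw [mul_sub, mul_sum]
    congr 1
    refine sum_congr rfl fun k _ => ?_
    field_simp
  have h3 : pm W (fun w => T * b w) ≤ T * M := by
    refine pm_le (by positivity) fun w hw => ?_
    exact mul_le_mul_of_nonneg_left (hb w hw) hT'.le
  have h4 : (N : ℝ) - cd ≤ ε / 2 * N := by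
    have h5 := card_compare (ν := ν) hD E T 0 B t0 hE (by omega)
    rw [Nat.sub_zero, ← hcd] at h5
    have h6 : (N : ℝ) ≤ (Sm D E (ν + 1) (D * (T + t0))).card := by exact_mod_cast hN2
    set p : ℝ := ((T : ℝ) + t0 - B + 1) / ((T : ℝ) - B + 1) with hp
    have ht0 : (0 : ℝ) ≤ t0 := Nat.cast_nonneg _
    have hp0 : 0 < p := div_pos (by linarith) (by linarith)
    have h7 : (((T : ℝ) - (0 : ℕ) - B + 1) / (T + t0 - B + 1)) ^ ν * p ^ ν = 1 := by
      rw [← mul_pow, hp]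
      have h8 : (T : ℝ) - B + 1 ≠ 0 := by linarith
      have h9 : (T : ℝ) + t0 - B + 1 ≠ 0 := by linarith
      rw [Nat.cast_zero, sub_zero, div_mul_div_comm, mul_comm, div_self (mul_ne_zero h9 h8),
        one_pow]
    have h8 : (N : ℝ) ≤ cd * p ^ ν := by
      have h9 := mul_le_mul_of_nonneg_right h5 (pow_pos hp0 ν).le
      rw [mul_assoc, h7, mul_one] at h9
      exact h6.trans h9
    have h9 : p ^ ν = rhd ν B t0 T + 1 := by
      unfold rhd
      rw [← hp]
      ring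
    rw [h9] at h8
    have h10 := mul_le_mul_of_nonneg_left hρ hcd0
    have h11 := mul_le_mul_of_nonneg_left hcdN (show (0 : ℝ) ≤ ε / 2 by positivity)
    linarith
  have h5 : ∑ s ∈ Sm D E (ν + 1) (D * T), pm W (fun w => T * b w - ∑ k, (s.1 k : ℝ) * Λ w k) ≤
      N * (T * (mean ν F + ε / 2 * M)) := by
    rw [sum_congr rfl fun s _ => h2 s.1, ← mul_sum]
    have h6 : cd * (mean ν F + kap ν B T * M) ≤ N * (mean ν F + ε / 2 * M) := by
      have h7 : cd * (mean ν F + kap ν B T * M) ≤ cd * (mean ν F + ε / 2 * M) := by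
        refine mul_le_mul_of_nonneg_left ?_ hcd0
        have := mul_le_mul_of_nonneg_right hκ hM
        linarith
      exact h7.trans (mul_le_mul_of_nonneg_right hcdN (by positivity))
    have h7 := mul_le_mul_of_nonneg_left (h1.trans h6) hT'.le
    refine h7.trans (le_of_eq ?_)
    ring
  have h6 : ((N : ℝ) - cd) * pm W (fun w => T * b w) ≤ (ε / 2 * N) * (T * M) :=
    mul_le_mul h4 h3 (pm_nonneg _ _) (by positivity)
  have e1 : (N : ℝ) * (T * (mean ν F + ε * M)) =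
      N * (T * (mean ν F + ε / 2 * M)) + (ε / 2 * N) * (T * M) := by ring
  rw [e1]
  exact add_le_add h5 h6

end Pool.Agent.H430.Ot
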