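import Pool.Graph.R_pool_sql_team_seeded_3dad9d7b.NH28.MainW
import Pool.Agent.H430.Ot.Glob
import Pool.Agent.H430.Ot.Riem2

/-!
The subspace theorem for the points of bounded degree, in the form of a transport problem.
-/

set_option autoImplicit false

namespace Pool.Agent.H430.Ot

open MvPolynomial Finset NumberField IsDedekindDomain Height Module
open Pool.Agent.W180.OP Pool.Agent.W180.TP Pool.Agent.NH28
open Pool.Agent.TH875 (VM VM_finite Sm mem_Sm Ind ind_ne exists_sec module_main alg_ind ym ym_hom dg)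

lemma mean_le {ν : ℕ} {f g : (Fin (ν + 1) → ℝ) → ℝ} (hf : Continuous f) (hg : Continuous g)
    {c : ℝ} (h : ∀ t ∈ sxc ν 1, f (bar t) ≤ g (bar t) + c) : mean ν f ≤ mean ν g + c := by
  have hV := vol_pos ν
  have hi : ∀ f : (Fin (ν + 1) → ℝ) → ℝ, Continuous f →
      MeasureTheory.IntegrableOn (fun t => f (bar t)) (sxc ν 1) := fun f hf =>
    (hf.comp continuous_bar).continuousOn.integrableOn_compact (isCompact_sxc ν 1)
  unfold mean
  rw [MeasureTheory.setAverage_eq, MeasureTheory.setAverage_eq, smul_eq_mul, smul_eq_mul]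
  have h1 : ∫ t in sxc ν 1, f (bar t) ≤ ∫ t in sxc ν 1, (g (bar t) + c) :=
    MeasureTheory.setIntegral_mono_on (hi f hf) ((hi g hg).add
      (MeasureTheory.integrableOn_const (vol_fin ν 1))) (meas_sxc ν 1) h
  rw [MeasureTheory.integral_add (hi g hg) (MeasureTheory.integrableOn_const (vol_fin ν 1)),
    MeasureTheory.setIntegral_const, smul_eq_mul] at h1
  have h2 := mul_le_mul_of_nonneg_left h1 (inv_nonneg.2 hV.le)
  refine h2.trans (le_of_eq ?_)
  rw [mul_add, inv_mul_cancel_left₀ hV.ne']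

lemma bar_nonneg {ν : ℕ} {t : Fin ν → ℝ} (ht : t ∈ sxc ν 1) (k : Fin (ν + 1)) : 0 ≤ bar t k := by
  refine Fin.cases ?_ (fun k => ?_) k
  · rw [bar_zero]
    have := ht.2
    linarith
  · rw [bar_succ]
    exact ht.1 k

lemma bar_sum {ν : ℕ} (t : Fin ν → ℝ) : ∑ k, bar t k = 1 := by
  rw [Fin.sum_univ_succ, bar_zero]
  simp only [bar_succ]
  ring

lemma cost_cont {ν : ℕ} {σ : Type} (W : Finset σ) (b : σ → ℝ) (Λ : σ → Fin (ν + 1) → ℝ) :
    Continuous fun u : Fin (ν + 1) → ℝ => pm W fun w => b w - ∑ k, u k * Λ w k :=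
  continuous_pm W (fun (w : σ) (u : Fin (ν + 1) → ℝ) => b w - ∑ k, u k * Λ w k) fun _ =>
      continuous_const.sub (continuous_finsetSum _ fun k _ =>
        (continuous_apply k).mul continuous_const)

/-- reduction to bounded sizes -/
lemma reduce {ν : ℕ} {σ : Type} (W : Finset σ) (p b : σ → ℝ) (Λ : σ → Fin (ν + 1) → ℝ) (r' M : ℝ)
    (hp : ∀ w ∈ W, 0 ≤ p w) (hpr : ∑ w ∈ W, p w ≤ r') (hM : 0 ≤ M)
    (hΛ : ∀ w ∈ W, ∀ k, Λ w k ≤ M) (hΛ0 : ∀ w ∈ W, ∀ k, 0 ≤ Λ w k) :
    ∃ b' : σ → ℝ, (∀ w, 0 ≤ b' w) ∧ (∀ w ∈ W, b' w ≤ M) ∧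
      ∑ w ∈ W, p w * b w - r' * mean ν (fun u => pm W fun w => b w - ∑ k, u k * Λ w k) ≤
      ∑ w ∈ W, p w * b' w - r' * mean ν (fun u => pm W fun w => b' w - ∑ k, u k * Λ w k) := by
  have hc := cost_cont W b Λ
  obtain ⟨t0, ht0, hmin⟩ := (isCompact_sxc ν 1).exists_isMinOn
    ⟨0, fun _ => le_rfl, by simp⟩ (hc.comp continuous_bar).continuousOn
  set g : ℝ := pm W fun w => b w - ∑ k, bar t0 k * Λ w k with hg
  have hg0 : 0 ≤ g := pm_nonneg _ _
  have hr0 : 0 ≤ r' := (sum_nonneg hp).trans hpr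
  have hmin' : ∀ t ∈ sxc ν 1, g ≤ pm W fun w => b w - ∑ k, bar t k * Λ w k := fun t ht => hmin ht
  refine ⟨fun w => max 0 (b w - g), fun w => le_max_left _ _, fun w hw => ?_, ?_⟩
  · refine max_le hM ?_
    have h1 : b w - ∑ k, bar t0 k * Λ w k ≤ g := le_pm hw fun w => b w - ∑ k, bar t0 k * Λ w k
    have h2 : ∑ k, bar t0 k * Λ w k ≤ ∑ k, bar t0 k * M :=
      sum_le_sum fun k _ => mul_le_mul_of_nonneg_left (hΛ w hw k) (bar_nonneg ht0 k)
    rw [← sum_mul, bar_sum, one_mul] at h2
    linarith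
  · have h1 : mean ν (fun u => pm W fun w => max 0 (b w - g) - ∑ k, u k * Λ w k) ≤
        mean ν (fun u => pm W fun w => b w - ∑ k, u k * Λ w k) + (-g) := by
      refine mean_le (cost_cont W _ Λ) hc fun t ht => ?_
      have h2 := hmin' t ht
      refine pm_le (by linarith) fun w hw => ?_
      have h3 : b w - ∑ k, bar t k * Λ w k ≤ pm W fun w => b w - ∑ k, bar t k * Λ w k :=
        le_pm hw fun w => b w - ∑ k, bar t k * Λ w k
      have h4 : 0 ≤ ∑ k, bar t k * Λ w k :=
        sum_nonneg fun k _ => mul_nonneg (bar_nonneg ht k) (hΛ0 w hw k)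
      rcases le_total 0 (b w - g) with h5 | h5
      · rw [max_eq_right h5]
        linarith
      · rw [max_eq_left h5]
        linarith
    have h2 : ∑ w ∈ W, p w * b w - r' * g ≤ ∑ w ∈ W, p w * max 0 (b w - g) := by
      have h3 : ∑ w ∈ W, p w * b w - r' * g ≤ ∑ w ∈ W, p w * (b w - g) := by
        have h4 : ∑ w ∈ W, p w * (b w - g) = ∑ w ∈ W, p w * b w - (∑ w ∈ W, p w) * g := by
          rw [sum_mul, ← sum_sub_distrib]
          exact sum_congr rfl fun w _ => by ring
        rw [h4]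
        have := mul_le_mul_of_nonneg_right hpr hg0
        linarith
      refine h3.trans (sum_le_sum fun w hw => ?_)
      exact mul_le_mul_of_nonneg_left (le_max_right _ _) (hp w hw)
    have h3 := mul_le_mul_of_nonneg_left h1 hr0
    linarith

/-- the local height of `F = 0` at `w`, normalised relative to `v` -/
noncomputable def pxy {K L : Type} [Field K] [NumberField K] [Field L] [NumberField L]
    [Algebra K L] {n : ℕ} (v : Pl K) (w : Pl L) (D : ℕ) (F : MvPolynomial (Fin n) K)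
    (x : Fin n → L) : ℝ :=
  max 0 (wt w * lam (av w) D (bc L F) x / nn v w)

theorem main_ot {K : Type} [Field K] [NumberField K] {n m ν r D : ℕ} (hr : 1 ≤ r)
    (hD : 1 ≤ D) (G : Fin m → MvPolynomial (Fin n) K) (g : Fin m → ℕ)
    (hG : ∀ k, (G k).IsHomogeneous (g k))
    (hprime : (Ideal.span (Set.range G)).IsPrime)
    (htr : Algebra.trdeg K (MvPolynomial (Fin n) K ⧸ Ideal.span (Set.range G)) = (ν + 1 : ℕ))
    {Sy : Type} [Fintype Sy] [Nonempty Sy] (y : Sy → Fin (ν + 1) → MvPolynomial (Fin n) K)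
    (hyh : ∀ e k, (y e k).IsHomogeneous D)
    (h0y : ∀ e, ∀ (L : Type) [Field L] [Algebra K L] (x : Fin n → L),
      (∀ k, aeval x (G k) = 0) → (∀ k, aeval x (y e k) = 0) → x = 0) (ε : ℝ) (hε : 0 < ε) :
    ∃ Z : MvPolynomial (Fin n) K, Z ∉ Ideal.span (Set.range G) ∧ (∃ t, Z.IsHomogeneous t) ∧
      ∀ S : Finset (Pl K), ∃ C : ℝ,
        ∀ (L : Type) [Field L] [NumberField L] [Algebra K L],
        finrank K L ≤ r → ∀ x : Fin n → L, x ≠ 0 → (∀ k, aeval x (G k) = 0) →
        IntermediateField.adjoin K {z | ∃ i j, z = x i / x j} = ⊤ → aeval x Z ≠ 0 →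
        ∀ e : Pl L → Sy, (∀ w k, aeval x (y (e w) k) ≠ 0) → ∀ b : Pl L → ℝ,
        ∑ v ∈ S, (∑ w ∈ ab L v, nn v w * b w - finrank K L * ∑ e', mean ν fun u =>
          pm (clu (ab L v) e e') fun w => b w - ∑ k, u k * pxy v w D (y (e w) k) x) ≤
        (1 + ε) * D * logHeight x + C := by
  classical
  obtain ⟨I, hI⟩ : ∃ I, I = Ideal.span (Set.range G) := ⟨_, rfl⟩
  have halg : ∀ e, AlgebraicIndependent K (fun k => Ideal.Quotient.mkₐ K I (y e k)) := by
    intro e
    subst hI
    exact alg_ind G g hG D hD (y e) (hyh e) (h0y e) hprime htr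
  have hmod : ∀ e, ∃ (E : Finset (Fin n →₀ ℕ)) (t0 : ℕ), Ind I (y e) E ∧ ∀ t, t0 ≤ t →
      ∀ M, Module.finrank K (VM I M) ≤ (Sm D E (ν + 1) (M + D * t)).card := by
    intro e
    have halge := halg e
    subst hI
    exact module_main G g hG D hD (y e) (hyh e) 0 (h0y e) hprime halge
  choose E t0 hE hcount using hmod
  have hprime' : I.IsPrime := by rw [hI]; exact hprime
  -- the numbers
  set t1 : ℕ := ∑ e, t0 e with ht1
  have htle : ∀ e, t0 e ≤ t1 := fun e =>
    Finset.single_le_sum (f := t0) (fun _ _ => Nat.zero_le _) (Finset.mem_univ e)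
  set B : ℕ := ∑ e, ∑ β ∈ E e, β.degree with hBd
  have hB : ∀ e, ∀ β ∈ E e, β.degree ≤ D * B := by
    intro e β hβ
    refine (Finset.single_le_sum (f := fun β : Fin n →₀ ℕ => β.degree) (fun _ _ => Nat.zero_le _)
      hβ).trans ?_
    refine (Finset.single_le_sum (f := fun e => ∑ β ∈ E e, β.degree) (fun _ _ => Nat.zero_le _)
      (Finset.mem_univ e)).trans ?_
    exact Nat.le_mul_of_pos_left _ hD
  obtain ⟨C1, hC10, hC1⟩ := exists_theta K n r
  have hrR : (1 : ℝ) ≤ r := by exact_mod_cast hr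
  have hDR : (1 : ℝ) ≤ D := by exact_mod_cast hD
  set cS : ℝ := ((Fintype.card Sy : ℕ) : ℝ) with hcS
  have hcS0 : 0 < cS := by
    rw [hcS]
    exact_mod_cast Fintype.card_pos
  set ε' : ℝ := ε / (2 * r * (cS * (ν + 1))) with hε'
  have hε'0 : 0 < ε' := by positivity
  have hTe : Filter.Tendsto (fun T : ℕ => (C1 + 1) / (T : ℝ)) Filter.atTop (nhds 0) :=
    tendsto_const_nhds.div_atTop tendsto_natCast_atTop_atTop
  obtain ⟨T, hriem, hTC, hT1⟩ := ((riem ν B t1 ε' hε'0).and
    ((hTe.eventually_le_const (show (0 : ℝ) < ε / 2 by positivity)).and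
      (Filter.eventually_ge_atTop 1))).exists
  set M : ℕ := D * T with hM
  obtain ⟨e0⟩ : Nonempty Sy := inferInstance
  have hfin : FiniteDimensional K (VM I M) := VM_finite I M
  obtain ⟨N, hN⟩ : ∃ N, N = Module.finrank K (VM I M) := ⟨_, rfl⟩
  have hN1 : 1 ≤ N := by
    set a := Ideal.Quotient.mkₐ K I (y e0 0) with ha
    have ha0 : a ≠ 0 := (halg e0).ne_zero 0
    have hmem : a ^ T ∈ VM I M := by
      refine ⟨y e0 0 ^ T, ?_, ?_⟩
      · exact (hyh e0 0).pow T
      · show Ideal.Quotient.mkₐ K I (y e0 0 ^ T) = _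
        rw [map_pow]
    rw [Nat.one_le_iff_ne_zero]
    intro h0
    rw [hN, Submodule.finrank_eq_zero] at h0
    rw [h0] at hmem
    exact pow_ne_zero _ ha0 ((Submodule.mem_bot K).1 hmem)
  obtain ⟨sec, hsec⟩ := exists_sec I M
  set b0 : Module.Basis (Fin N) K (VM I M) := Module.finBasisOfFinrankEq K (VM I M) hN.symm with hb0
  have hmemV : ∀ e, ∀ s : {s // s ∈ Sm D (E e) (ν + 1) M},
      Ideal.Quotient.mkₐ K I (ym (y e) s.1) ∈ VM I M := by
    intro e s
    have h1 := ym_hom (hyh e) s.1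
    rw [((mem_Sm hD (E e) M s.1).1 s.2).2] at h1
    exact ⟨_, h1, rfl⟩
  set u : ∀ e, {s // s ∈ Sm D (E e) (ν + 1) M} → VM I M := fun e s =>
    ⟨Ideal.Quotient.mkₐ K I (ym (y e) s.1), hmemV e s⟩ with hu
  have hSmN : ∀ e, (Sm D (E e) (ν + 1) M).card ≤ N := by
    intro e
    have h2 := (indep_u hD I (y e) (E e) (hE e) (u e) (fun _ => rfl)).fintype_card_le_finrank
    rwa [← hN, Fintype.card_coe] at h2
  have hNSm : ∀ e, N ≤ (Sm D (E e) (ν + 1) (D * (T + t1))).card := by
    intro e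
    have h2 := hcount e t1 (htle e) M
    rw [← hN] at h2
    have e1 : M + D * t1 = D * (T + t1) := by rw [hM]; ring
    rwa [e1] at h2
  obtain ⟨Z, hZI, hZh, hmain⟩ := glob_c hD hN1 I hprime' G hI y hyh E hE sec hsec u
    (fun _ _ => rfl) hN.symm b0 r hr C1 ⟨hC10, hC1⟩ T (Nat.cast_nonneg _)
  refine ⟨Z, by rw [← hI]; exact hZI, hZh, fun S => ?_⟩
  -- enlarge `S`
  choose Tb hTb using fun j => exists_bad (sec (b0 j))
  set S' : Finset (Pl K) := S ∪ (Finset.univ.image Sum.inl ∪
    Finset.univ.biUnion fun j => (Tb j).image Sum.inr) with hS'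
  have hSS : S ⊆ S' := Finset.subset_union_left
  obtain ⟨C, c0, hC0, hc00, hC⟩ := hmain S' (fun v => by
    rw [hS']
    exact Finset.mem_union_right _ (Finset.mem_union_left _
      (Finset.mem_image_of_mem _ (Finset.mem_univ v)))) (fun v hv j => by
    refine hTb j v fun hvT => hv ?_
    rw [hS']
    refine Finset.mem_union_right _ (Finset.mem_union_right _ ?_)
    exact Finset.mem_biUnion.2 ⟨j, Finset.mem_univ j, Finset.mem_image_of_mem _ hvT⟩)
  choose Cl hCl0 hCl using fun (t : Sy × Fin (ν + 1)) => liou_u (y t.1 t.2) D (hyh t.1 t.2)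
  set Q : ℝ := (finrank ℚ K : ℝ) * r with hQ
  have hQ0 : 0 ≤ Q := by positivity
  have hCls : 0 ≤ ∑ t, Cl t := Finset.sum_nonneg fun t _ => hCl0 t
  set C5 : ℝ := cS * (ν + 1) * ((∑ t, Cl t) * Q) + S.card * (r * ((ν + 1) * c0)) with hC5
  refine ⟨C / T + ε' * r * C5, ?_⟩
  intro L _ _ _ hrL x hx hGx hadj hZx e hyx b
  obtain ⟨hpos, h1⟩ := hC L hrL x hx hGx hadj hZx e hyx
  set h : ℝ := logHeight x with hh
  have hh0 : 0 ≤ h := logHeight_nonneg x
  set r' : ℝ := (finrank K L : ℝ) with hr'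
  have hr'0 : 0 ≤ r' := Nat.cast_nonneg _
  have hr'r : r' ≤ r := by
    rw [hr']
    exact_mod_cast hrL
  have hTR : (0 : ℝ) < T := by exact_mod_cast hT1
  have hLL0 : ∀ v w k, 0 ≤ LL v w c0 D (y (e w) k) x := fun v w k =>
    div_nonneg (hpos w k) (nn_nonneg v w)
  have hLLle : ∀ v w k, pxy v w D (y (e w) k) x ≤ LL v w c0 D (y (e w) k) x := by
    intro v w k
    refine max_le (hLL0 v w k) ?_
    unfold LL
    exact div_le_div_of_nonneg_right (by linarith) (nn_nonneg v w)
  choose bel hbel using fun w : Pl L => exists_below (K := K) w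
  have hbelv : ∀ (v : Pl K), ∀ w ∈ ab L v, bel w = v := fun v w hw => ov_unique (hbel w) (mem_ab.1 hw)
  -- the sizes of the clusters
  set Mc : Pl K → Sy → ℝ := fun v e' => ∑ w ∈ clu (ab L v) e e', ∑ k, LL v w c0 D (y (e w) k) x
    with hMc
  have hMc0 : ∀ v e', 0 ≤ Mc v e' := fun v e' => sum_nonneg fun w _ => sum_nonneg fun k _ =>
    hLL0 v w k
  have hLM : ∀ v e', ∀ w ∈ clu (ab L v) e e', ∀ k, LL v w c0 D (y (e w) k) x ≤ Mc v e' := by
    intro v e' w hw k
    refine (single_le_sum (f := fun k => LL v w c0 D (y (e w) k) x) (fun k _ => hLL0 v w k)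
      (mem_univ k)).trans ?_
    exact single_le_sum (f := fun w => ∑ k, LL v w c0 D (y (e w) k) x)
      (fun w _ => sum_nonneg fun k _ => hLL0 v w k) hw
  have hcsum : ∀ (v : Pl K) (f : Pl L → ℝ), ∑ w ∈ ab L v, f w = ∑ e', ∑ w ∈ clu (ab L v) e e', f w := by
    intro v f
    unfold clu
    exact (sum_fiberwise _ _ _).symm
  have hpr : ∀ (v : Pl K) e', ∑ w ∈ clu (ab L v) e e', nn v w ≤ r' := by
    intro v e'
    rw [hr', ← sum_nn L v]
    refine sum_le_sum_of_subset_of_nonneg (fun w hw => (mem_clu.1 hw).1) fun w _ _ =>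
      nn_nonneg v w
  choose bs hbs0 hbs1 hbs2 using fun (v : Pl K) (e' : Sy) => reduce (ν := ν) (clu (ab L v) e e')
    (fun w => nn v w) b (fun w k => LL v w c0 D (y (e w) k) x) r' (Mc v e')
    (fun w _ => nn_nonneg v w) (hpr v e') (hMc0 v e') (fun w hw k => hLM v e' w hw k)
    (fun w _ k => hLL0 v w k)
  set bb : Pl L → ℝ := fun w => if bel w ∈ S then bs (bel w) (e w) w else 0 with hbb
  have hbb0 : ∀ w, 0 ≤ bb w := by
    intro w
    simp only [hbb]
    split_ifs
    · exact hbs0 _ _ _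
    · exact le_rfl
  have hbbS : ∀ v ∈ S, ∀ e', ∀ w ∈ clu (ab L v) e e', bb w = bs v e' w := by
    intro v hv e' w hw
    obtain ⟨h2, h3⟩ := mem_clu.1 hw
    simp only [hbb]
    rw [hbelv v w h2, if_pos hv, h3]
  have hbbN : ∀ v, v ∉ S → ∀ w ∈ ab L v, bb w = 0 := by
    intro v hv w hw
    simp only [hbb]
    rw [hbelv v w hw, if_neg hv]
  have hMcab : ∀ v, ∑ e', Mc v e' = ∑ w ∈ ab L v, ∑ k, LL v w c0 D (y (e w) k) x := fun v =>
    (hcsum v _).symm
  have h2 := h1 (fun w => T * bb w) (fun w => mul_nonneg hTR.le (hbb0 w)) (by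
    intro v _ w hw
    refine mul_le_mul_of_nonneg_left ?_ hTR.le
    rw [← hMcab]
    by_cases hv : v ∈ S
    · have h3 : w ∈ clu (ab L v) e (e w) := mem_clu.2 ⟨hw, rfl⟩
      rw [hbbS v hv (e w) w h3]
      exact (hbs1 v (e w) w h3).trans (single_le_sum (f := Mc v) (fun e' _ => hMc0 v e')
        (mem_univ _))
    · rw [hbbN v hv w hw]
      exact sum_nonneg fun e' _ => hMc0 v e')
  -- the gains
  set A : Pl K → ℝ := fun v => ∑ w ∈ ab L v, nn v w * bb w - r' * ∑ e', (mean ν (fun u =>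
    pm (clu (ab L v) e e') fun w => bb w - ∑ k, u k * LL v w c0 D (y (e w) k) x) +
      ε' * Mc v e') with hA
  have h3 : (N * T : ℝ) * ∑ v ∈ S, A v ≤ N * ((M + C1 + 1) * h + C) := by
    refine le_trans ?_ h2
    rw [mul_sum]
    refine le_trans (sum_le_sum (g := fun v => (N * ∑ w ∈ ab L v, nn v w * (T * bb w) -
      finrank K L * ∑ e', (∑ s ∈ Sm D (E e') (ν + 1) M,
            pm (clu (ab L v) e e') (fun w => T * bb w - ∑ k, (s.1 k : ℝ) *
              LL v w c0 D (y (e w) k) x) +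
            ((N : ℝ) - (Sm D (E e') (ν + 1) M).card) *
              pm (clu (ab L v) e e') fun w => T * bb w))) ?_) ?_
    · intro v hv
      have h4 : ∀ e', ∑ s ∈ Sm D (E e') (ν + 1) M,
            pm (clu (ab L v) e e') (fun w => T * bb w - ∑ k, (s.1 k : ℝ) *
              LL v w c0 D (y (e w) k) x) +
            ((N : ℝ) - (Sm D (E e') (ν + 1) M).card) *
              pm (clu (ab L v) e e') (fun w => T * bb w) ≤
          N * (T * (mean ν (fun u => pm (clu (ab L v) e e') fun w => bb w -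
            ∑ k, u k * LL v w c0 D (y (e w) k) x) + ε' * Mc v e')) := by
        intro e'
        exact hriem n D hD (E e') (hB e') N (hSmN e') (hNSm e') (Pl L) (clu (ab L v) e e') bb
          (fun w k => LL v w c0 D (y (e w) k) x) (Mc v e') (hMc0 v e') (fun w hw => by
            rw [hbbS v hv e' w hw]
            exact hbs1 v e' w hw) (fun w _ k => hLL0 v w k) (hLM v e')
      have h5 := mul_le_mul_of_nonneg_left (sum_le_sum fun e' (_ : e' ∈ univ) => h4 e') hr'0
      have h6 : (N * T : ℝ) * A v = N * ∑ w ∈ ab L v, nn v w * (T * bb w) -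
          r' * ∑ e', N * (T * (mean ν (fun u => pm (clu (ab L v) e e') fun w => bb w -
            ∑ k, u k * LL v w c0 D (y (e w) k) x) + ε' * Mc v e')) := by
        simp only [hA]
        have h7 : ∑ w ∈ ab L v, nn v w * (T * bb w) = T * ∑ w ∈ ab L v, nn v w * bb w := by
          rw [mul_sum]
          exact sum_congr rfl fun w _ => by ring
        have h8 : ∑ e', N * (T * (mean ν (fun u => pm (clu (ab L v) e e') fun w => bb w -
            ∑ k, u k * LL v w c0 D (y (e w) k) x) + ε' * Mc v e')) = N * T *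
            ∑ e', (mean ν (fun u => pm (clu (ab L v) e e') fun w => bb w -
            ∑ k, u k * LL v w c0 D (y (e w) k) x) + ε' * Mc v e') := by
          rw [mul_sum]
          exact sum_congr rfl fun e' _ => by ring
        rw [h7, h8]
        ring
      rw [h6]
      exact sub_le_sub_left h5 _
    · refine sum_le_sum_of_subset_of_nonneg hSS fun v _ hv => le_of_eq ?_
      have h4 : ∀ w ∈ ab L v, (T : ℝ) * bb w = 0 := fun w hw => by rw [hbbN v hv w hw, mul_zero]
      have h5 : ∑ w ∈ ab L v, nn v w * (T * bb w) = 0 := sum_eq_zero fun w hw => by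
        rw [h4 w hw, mul_zero]
      have h6 : ∀ e', ∑ s ∈ Sm D (E e') (ν + 1) M,
            pm (clu (ab L v) e e') (fun w => T * bb w - ∑ k, (s.1 k : ℝ) *
              LL v w c0 D (y (e w) k) x) +
            ((N : ℝ) - (Sm D (E e') (ν + 1) M).card) *
              pm (clu (ab L v) e e') (fun w => T * bb w) = 0 := by
        intro e'
        have h7 : pm (clu (ab L v) e e') (fun w => T * bb w) = 0 :=
          le_antisymm (pm_le le_rfl fun w hw => (h4 w (mem_clu.1 hw).1).le) (pm_nonneg _ _)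
        rw [h7, mul_zero, add_zero]
        refine sum_eq_zero fun s _ => ?_
        refine le_antisymm (pm_le le_rfl fun w hw => ?_) (pm_nonneg _ _)
        have h8 : 0 ≤ ∑ k, (s.1 k : ℝ) * LL v w c0 D (y (e w) k) x :=
          sum_nonneg fun k _ => mul_nonneg (Nat.cast_nonneg _) (hLL0 v w k)
        rw [h4 w (mem_clu.1 hw).1]
        linarith
      rw [h5, sum_eq_zero fun e' _ => h6 e', mul_zero, mul_zero, sub_zero]
  have h4 : ∑ v ∈ S, A v ≤ (1 + ε / 2) * D * h + C / T := by
    have hNR : (0 : ℝ) < N := by exact_mod_cast hN1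
    have h5 : (N * T : ℝ) * ∑ v ∈ S, A v ≤ (N * T) * ((1 + ε / 2) * D * h + C / T) := by
      refine h3.trans ?_
      have e1 : (N * T : ℝ) * ((1 + ε / 2) * D * h + C / T) =
          N * (T * ((1 + ε / 2) * D) * h + C) := by
        field_simp
      rw [e1]
      refine mul_le_mul_of_nonneg_left ?_ hNR.le
      refine add_le_add (mul_le_mul_of_nonneg_right ?_ hh0) le_rfl
      rw [div_le_iff₀ hTR] at hTC
      have h6 : ε / 2 * T ≤ ε / 2 * T * D := le_mul_of_one_le_right (by positivity) hDR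
      rw [hM]
      push_cast
      have e2 : (T : ℝ) * ((1 + ε / 2) * D) = D * T + ε / 2 * T * D := by ring
      rw [e2]
      linarith
    exact le_of_mul_le_mul_left h5 (by positivity)
  -- the comparison
  have h5 : ∀ v ∈ S, ∑ w ∈ ab L v, nn v w * b w - r' * ∑ e', mean ν (fun u =>
      pm (clu (ab L v) e e') fun w => b w - ∑ k, u k * pxy v w D (y (e w) k) x) ≤
      A v + r' * (ε' * ∑ e', Mc v e') := by
    intro v hv
    have h6 : ∀ e', ∑ w ∈ clu (ab L v) e e', nn v w * b w - r' * mean ν (fun u =>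
        pm (clu (ab L v) e e') fun w => b w - ∑ k, u k * pxy v w D (y (e w) k) x) ≤
        ∑ w ∈ clu (ab L v) e e', nn v w * bb w - r' * mean ν (fun u =>
        pm (clu (ab L v) e e') fun w => bb w - ∑ k, u k * LL v w c0 D (y (e w) k) x) := by
      intro e'
      have h7 : mean ν (fun u => pm (clu (ab L v) e e') fun w => b w -
          ∑ k, u k * LL v w c0 D (y (e w) k) x) ≤ mean ν (fun u =>
          pm (clu (ab L v) e e') fun w => b w - ∑ k, u k * pxy v w D (y (e w) k) x) := by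
        have := mean_le (ν := ν) (c := 0)
          (cost_cont (clu (ab L v) e e') b fun w k => LL v w c0 D (y (e w) k) x)
          (cost_cont (clu (ab L v) e e') b fun w k => pxy v w D (y (e w) k) x) (by
            intro t ht
            rw [add_zero]
            refine pm_mono fun w _ => ?_
            have := sum_le_sum fun k (_ : k ∈ univ) =>
              mul_le_mul_of_nonneg_left (hLLle v w k) (bar_nonneg ht k)
            linarith)
        rwa [add_zero] at this
      have h8 := hbs2 v e'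
      have h9 : ∑ w ∈ clu (ab L v) e e', nn v w * bb w =
          ∑ w ∈ clu (ab L v) e e', nn v w * bs v e' w :=
        sum_congr rfl fun w hw => by rw [hbbS v hv e' w hw]
      have h10 : (fun u : Fin (ν + 1) → ℝ => pm (clu (ab L v) e e') fun w => bb w -
          ∑ k, u k * LL v w c0 D (y (e w) k) x) = fun u => pm (clu (ab L v) e e') fun w =>
          bs v e' w - ∑ k, u k * LL v w c0 D (y (e w) k) x := by
        funext u
        apply le_antisymm
        · exact pm_mono fun w hw => by rw [hbbS v hv e' w hw]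
        · exact pm_mono fun w hw => by rw [hbbS v hv e' w hw]
      rw [h9, h10]
      have h11 := mul_le_mul_of_nonneg_left h7 hr'0
      linarith
    have h7 := sum_le_sum fun e' (_ : e' ∈ univ) => h6 e'
    rw [sum_sub_distrib, sum_sub_distrib, ← mul_sum, ← mul_sum, ← hcsum v, ← hcsum v] at h7
    refine h7.trans (le_of_eq ?_)
    simp only [hA]
    rw [sum_add_distrib, ← mul_sum]
    ring
  have h6 : ∑ v ∈ S, ∑ e', Mc v e' ≤ cS * (ν + 1) * (D * h) + C5 := by
    have h7 : ∑ v ∈ S, ∑ e', Mc v e' ≤ ∑ v ∈ S, ∑ w ∈ ab L v, ∑ k,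
        (wt w * max 0 (lam (av w) D (bc L (y (e w) k)) x) + c0) := by
      refine sum_le_sum fun v _ => ?_
      rw [hMcab]
      refine sum_le_sum fun w hw => sum_le_sum fun k _ => ?_
      have hnn := one_le_nn (mem_ab.1 hw)
      refine (div_le_self (hpos w k) hnn).trans ?_
      have := mul_le_mul_of_nonneg_left (le_max_right 0 (lam (av w) D (bc L (y (e w) k)) x))
        (wt_nonneg w)
      linarith
    have h8 : ∑ v ∈ S, ∑ w ∈ ab L v, ∑ k : Fin (ν + 1),
        (wt w * max 0 (lam (av w) D (bc L (y (e w) k)) x) + c0) ≤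
        ∑ v ∈ S, ∑ w ∈ ab L v, ∑ k : Fin (ν + 1),
          wt w * max 0 (lam (av w) D (bc L (y (e w) k)) x) + S.card * (r * ((ν + 1) * c0)) := by
      have h9 : ∀ v ∈ S, ∑ w ∈ ab L v, ∑ k : Fin (ν + 1),
          (wt w * max 0 (lam (av w) D (bc L (y (e w) k)) x) + c0) ≤
          ∑ w ∈ ab L v, ∑ k : Fin (ν + 1),
            wt w * max 0 (lam (av w) D (bc L (y (e w) k)) x) + r * ((ν + 1) * c0) := by
        intro v _
        have h10 : ∑ w ∈ ab L v, ∑ k : Fin (ν + 1),
            (wt w * max 0 (lam (av w) D (bc L (y (e w) k)) x) + c0) =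
            ∑ w ∈ ab L v, ∑ k : Fin (ν + 1),
            wt w * max 0 (lam (av w) D (bc L (y (e w) k)) x) +
              (ab L v).card * ((ν + 1) * c0) := by
          simp only [sum_add_distrib, sum_const, card_univ, Fintype.card_fin, nsmul_eq_mul]
          push_cast
          ring
        rw [h10]
        have h11 : ((ab L v).card : ℝ) ≤ r := by exact_mod_cast (card_ab_le L v).trans hrL
        have := mul_le_mul_of_nonneg_right h11 (show 0 ≤ ((ν : ℝ) + 1) * c0 by positivity)
        linarith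
      refine (sum_le_sum h9).trans (le_of_eq ?_)
      rw [sum_add_distrib, sum_const, nsmul_eq_mul]
    have h9 : ∑ v ∈ S, ∑ w ∈ ab L v, ∑ k : Fin (ν + 1),
        wt w * max 0 (lam (av w) D (bc L (y (e w) k)) x) ≤
        cS * (ν + 1) * (D * h + (∑ t, Cl t) * Q) := by
      set Wt : Finset (Pl L) := S.biUnion fun v => ab L v with hWt
      have h10 : ∑ v ∈ S, ∑ w ∈ ab L v, ∑ k : Fin (ν + 1),
          wt w * max 0 (lam (av w) D (bc L (y (e w) k)) x) = ∑ w ∈ Wt, ∑ k : Fin (ν + 1),
          wt w * max 0 (lam (av w) D (bc L (y (e w) k)) x) := by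
        rw [hWt, sum_biUnion]
        intro v _ v' _ hne
        rw [Function.onFun, Finset.disjoint_left]
        intro w hw hw'
        exact hne ((hbelv v w hw).symm.trans (hbelv v' w hw'))
      rw [h10, sum_comm]
      have h11 : ∀ k : Fin (ν + 1), ∑ w ∈ Wt, wt w * max 0 (lam (av w) D (bc L (y (e w) k)) x) ≤
          cS * (D * h + (∑ t, Cl t) * Q) := by
        intro k
        have h12 : ∑ w ∈ Wt, wt w * max 0 (lam (av w) D (bc L (y (e w) k)) x) =
            ∑ e', ∑ w ∈ clu Wt e e', wt w * max 0 (lam (av w) D (bc L (y (e w) k)) x) := by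
          unfold clu
          exact (sum_fiberwise _ _ _).symm
        rw [h12]
        refine (sum_le_sum (g := fun _ => D * h + (∑ t, Cl t) * Q) fun e' _ => ?_).trans
          (le_of_eq ?_)
        · rcases (clu Wt e e').eq_empty_or_nonempty with h0 | ⟨w0, hw0⟩
          · rw [h0, sum_empty]
            positivity
          · have h13 : ∑ w ∈ clu Wt e e', wt w * max 0 (lam (av w) D (bc L (y (e w) k)) x) =
                ∑ w ∈ clu Wt e e', wt w * max 0 (lam (av w) D (bc L (y e' k)) x) :=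
              sum_congr rfl fun w hw => by rw [(mem_clu.1 hw).2]
            rw [h13]
            have h14 : aeval x (y e' k) ≠ 0 := by
              rw [← (mem_clu.1 hw0).2]
              exact hyx w0 k
            have h15 := hCl (e', k) L (clu Wt e e') x hx h14
            have h16 : Cl (e', k) * finrank ℚ L ≤ (∑ t, Cl t) * Q := by
              have h17 : Cl (e', k) ≤ ∑ t, Cl t :=
                Finset.single_le_sum (f := Cl) (fun t _ => hCl0 t) (Finset.mem_univ _)
              have hfq : (finrank ℚ L : ℝ) ≤ Q := by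
                have h1 : finrank ℚ K * finrank K L = finrank ℚ L := finrank_mul_finrank ℚ K L
                rw [hQ, ← h1]
                push_cast
                exact mul_le_mul_of_nonneg_left (by exact_mod_cast hrL) (Nat.cast_nonneg _)
              exact mul_le_mul h17 hfq (Nat.cast_nonneg _) hCls
            linarith
        · rw [sum_const, card_univ, nsmul_eq_mul]
      refine (sum_le_sum fun k _ => h11 k).trans (le_of_eq ?_)
      rw [sum_const, card_univ, Fintype.card_fin, nsmul_eq_mul]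
      push_cast
      ring
    rw [hC5]
    have e1 : cS * (ν + 1) * (D * h + (∑ t, Cl t) * Q) = cS * (ν + 1) * (D * h) +
      cS * (ν + 1) * ((∑ t, Cl t) * Q) := by ring
    rw [e1] at h9
    linarith
  have h7 : r' * (ε' * ∑ v ∈ S, ∑ e', Mc v e') ≤ ε / 2 * D * h + ε' * r * C5 := by
    have h8 : 0 ≤ ∑ v ∈ S, ∑ e', Mc v e' := sum_nonneg fun v _ => sum_nonneg fun e' _ => hMc0 v e'
    have h9 : r' * (ε' * ∑ v ∈ S, ∑ e', Mc v e') ≤ r * (ε' * ∑ v ∈ S, ∑ e', Mc v e') :=
      mul_le_mul_of_nonneg_right hr'r (by positivity)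
    have h10 : (r : ℝ) * (ε' * ∑ v ∈ S, ∑ e', Mc v e') ≤
        r * (ε' * (cS * (ν + 1) * (D * h) + C5)) :=
      mul_le_mul_of_nonneg_left (mul_le_mul_of_nonneg_left h6 hε'0.le) (by positivity)
    refine h9.trans (h10.trans (le_of_eq ?_))
    have e1 : (r : ℝ) * (ε' * (cS * (ν + 1) * (D * h) + C5)) =
        (ε' * (2 * r * (cS * (ν + 1)))) / 2 * D * h + ε' * r * C5 := by ring
    rw [e1, hε', div_mul_cancel₀ _ (by positivity)]
  have h8 := sum_le_sum h5
  rw [sum_add_distrib, ← mul_sum, ← mul_sum] at h8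
  have e1 : (1 + ε) * D * h = (1 + ε / 2) * D * h + ε / 2 * D * h := by ring
  rw [e1]
  linarith

end Pool.Agent.H430.Ot
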