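import Pool.Agent.H430.Ot.Place

/-!
Sums over the exponents and means over the simplex.
-/

set_option autoImplicit false

namespace Pool.Agent.H430.Ot

open MeasureTheory Finset
open scoped Pointwise

/-- the simplex `t i ≥ 0`, `∑ t i ≤ c` -/
def sxc (ν : ℕ) (c : ℝ) : Set (Fin ν → ℝ) := {t | (∀ i, 0 ≤ t i) ∧ ∑ i, t i ≤ c}

/-- barycentric coordinates -/
noncomputable def bar {ν : ℕ} (t : Fin ν → ℝ) : Fin (ν + 1) → ℝ := Fin.cons (1 - ∑ i, t i) t

lemma bar_zero {ν : ℕ} (t : Fin ν → ℝ) : bar t 0 = 1 - ∑ i, t i := rfl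

lemma bar_succ {ν : ℕ} (t : Fin ν → ℝ) (k : Fin ν) : bar t k.succ = t k := rfl

/-- the mean of a function over the simplex of dimension `ν` -/
noncomputable def mean (ν : ℕ) (f : (Fin (ν + 1) → ℝ) → ℝ) : ℝ := ⨍ t in sxc ν 1, f (bar t)

lemma continuous_bar {ν : ℕ} : Continuous (bar (ν := ν)) := by
  refine continuous_pi fun k => ?_
  refine Fin.cases ?_ (fun k => ?_) k
  · simp only [bar_zero]
    fun_prop
  · simp only [bar_succ]
    fun_prop

lemma isClosed_sxc (ν : ℕ) (c : ℝ) : IsClosed (sxc ν c) := by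
  have h1 : sxc ν c = (⋂ i, {t | 0 ≤ t i}) ∩ {t | ∑ i, t i ≤ c} := by
    ext t
    simp [sxc]
  rw [h1]
  refine IsClosed.inter (isClosed_iInter fun i => ?_) ?_
  · exact isClosed_le continuous_const (continuous_apply i)
  · exact isClosed_le (by fun_prop) continuous_const

lemma isCompact_sxc (ν : ℕ) (c : ℝ) : IsCompact (sxc ν c) := by
  refine (isCompact_Icc (a := (0 : Fin ν → ℝ)) (b := fun _ => c)).of_isClosed_subset
    (isClosed_sxc ν c) ?_
  rintro t ⟨h1, h2⟩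
  refine ⟨fun i => h1 i, fun i => ?_⟩
  exact (single_le_sum (f := t) (fun i _ => h1 i) (mem_univ i)).trans h2

lemma meas_sxc (ν : ℕ) (c : ℝ) : MeasurableSet (sxc ν c) := (isClosed_sxc ν c).measurableSet

lemma vol_fin (ν : ℕ) (c : ℝ) : volume (sxc ν c) ≠ ⊤ := (isCompact_sxc ν c).measure_lt_top.ne

lemma sxc_smul (ν : ℕ) {c : ℝ} (hc : 0 < c) : sxc ν c = c • sxc ν 1 := by
  ext t
  rw [Set.mem_smul_set_iff_inv_smul_mem₀ hc.ne']
  simp only [sxc, Set.mem_ofPred_eq, Pi.smul_apply, smul_eq_mul]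
  have hc' : 0 < c⁻¹ := inv_pos.2 hc
  rw [← mul_sum]
  constructor
  · rintro ⟨h1, h2⟩
    refine ⟨fun i => mul_nonneg hc'.le (h1 i), ?_⟩
    have := mul_le_mul_of_nonneg_left h2 hc'.le
    rwa [inv_mul_cancel₀ hc.ne'] at this
  · rintro ⟨h1, h2⟩
    refine ⟨fun i => ?_, ?_⟩
    · have := mul_nonneg hc.le (h1 i)
      rwa [mul_inv_cancel_left₀ hc.ne'] at this
    · have := mul_le_mul_of_nonneg_left h2 hc.le
      rwa [mul_inv_cancel_left₀ hc.ne', mul_one] at this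

lemma vol_smul (ν : ℕ) {c : ℝ} (hc : 0 < c) :
    volume.real (sxc ν c) = c ^ ν * volume.real (sxc ν 1) := by
  rw [sxc_smul ν hc]
  unfold Measure.real
  rw [Measure.addHaar_smul_of_nonneg _ hc.le, ENNReal.toReal_mul,
    ENNReal.toReal_ofReal (by positivity)]
  simp

lemma vol_pos (ν : ℕ) : 0 < volume.real (sxc ν 1) := by
  refine ENNReal.toReal_pos ?_ (vol_fin ν 1)
  have h1 : Set.pi Set.univ (fun _ : Fin ν => Set.Ioo (0 : ℝ) (1 / (ν + 1))) ⊆ sxc ν 1 := by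
    intro t ht
    rw [Set.mem_univ_pi] at ht
    refine ⟨fun i => (ht i).1.le, ?_⟩
    have h2 : ∑ i, t i ≤ ∑ _i : Fin ν, (1 / ((ν : ℝ) + 1)) := sum_le_sum fun i _ => (ht i).2.le
    refine h2.trans ?_
    rw [sum_const, card_univ, Fintype.card_fin, nsmul_eq_mul, mul_one_div,
      div_le_one (by positivity)]
    linarith
  have h2 : 0 < volume (Set.pi Set.univ (fun _ : Fin ν => Set.Ioo (0 : ℝ) (1 / (ν + 1)))) := by
    rw [Real.volume_pi_Ioo]
    refine CanonicallyOrderedAdd.prod_pos.2 fun i _ => ?_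
    rw [ENNReal.ofReal_pos]
    have : (0 : ℝ) < 1 / (ν + 1) := by positivity
    linarith
  exact (lt_of_lt_of_le h2 (measure_mono h1)).ne'

/-- the cubes -/
def cube {ν : ℕ} (T : ℝ) (s : Fin (ν + 1) → ℕ) : Set (Fin ν → ℝ) :=
  Set.pi Set.univ fun k : Fin ν => Set.Ico ((s k.succ : ℝ) / T) (((s k.succ : ℝ) + 1) / T)

lemma mem_cube {ν : ℕ} {T : ℝ} {s : Fin (ν + 1) → ℕ} {t : Fin ν → ℝ} :
    t ∈ cube T s ↔ ∀ k : Fin ν, (s k.succ : ℝ) / T ≤ t k ∧ t k < ((s k.succ : ℝ) + 1) / T := by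
  unfold cube
  rw [Set.mem_univ_pi]
  rfl

lemma meas_cube {ν : ℕ} (T : ℝ) (s : Fin (ν + 1) → ℕ) : MeasurableSet (cube (ν := ν) T s) :=
  MeasurableSet.univ_pi fun _ => measurableSet_Ico

lemma vol_cube {ν : ℕ} {T : ℝ} (hT : 0 < T) (s : Fin (ν + 1) → ℕ) :
    volume.real (cube (ν := ν) T s) = (1 / T) ^ ν := by
  unfold cube Measure.real
  rw [Real.volume_pi_Ico_toReal]
  · have : ∀ i : Fin ν, ((s i.succ : ℝ) + 1) / T - (s i.succ : ℝ) / T = 1 / T := fun i => by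
      rw [← sub_div]
      congr 1
      ring
    simp only [this, prod_const, card_univ, Fintype.card_fin]
  · intro i
    show (s i.succ : ℝ) / T ≤ ((s i.succ : ℝ) + 1) / T
    exact div_le_div_of_nonneg_right (by linarith) hT.le

lemma vol_cube_ne {ν : ℕ} (T : ℝ) (s : Fin (ν + 1) → ℕ) :
    volume (cube (ν := ν) T s) ≠ ⊤ := by
  unfold cube
  rw [Real.volume_pi_Ico]
  exact (ENNReal.prod_lt_top fun i _ => ENNReal.ofReal_lt_top).ne

lemma cube_disj {ν : ℕ} {T : ℝ} (hT : 0 < T) {s s' : Fin (ν + 1) → ℕ} {m : ℕ}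
    (hs : ∑ k, s k = m) (hs' : ∑ k, s' k = m) (hne : s ≠ s') :
    Disjoint (cube (ν := ν) T s) (cube T s') := by
  rw [Set.disjoint_left]
  intro t ht ht'
  rw [mem_cube] at ht ht'
  apply hne
  have h1 : ∀ k : Fin ν, s k.succ = s' k.succ := by
    intro k
    have h2 := ht k
    have h3 := ht' k
    rw [div_le_iff₀ hT, lt_div_iff₀ hT] at h2 h3
    have h4 : (s k.succ : ℝ) < (s' k.succ : ℝ) + 1 := by linarith
    have h5 : (s' k.succ : ℝ) < (s k.succ : ℝ) + 1 := by linarith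
    have h6 : s k.succ < s' k.succ + 1 := by exact_mod_cast h4
    have h7 : s' k.succ < s k.succ + 1 := by exact_mod_cast h5
    omega
  rw [Fin.sum_univ_succ] at hs hs'
  have h2 : ∑ i : Fin ν, s i.succ = ∑ i : Fin ν, s' i.succ := sum_congr rfl fun k _ => h1 k
  funext k
  refine Fin.cases ?_ (fun k => h1 k) k
  omega

lemma cube_dist {ν : ℕ} {T m B : ℕ} (hT : 0 < T) (hm : m ≤ T) (hB : T ≤ m + B)
    {s : Fin (ν + 1) → ℕ} (hs : ∑ k, s k = m) {t : Fin ν → ℝ} (ht : t ∈ cube (T : ℝ) s) :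
    ∑ k, |(s k : ℝ) / T - bar t k| ≤ (B + 2 * ν) / T := by
  have hT' : (0 : ℝ) < T := by exact_mod_cast hT
  rw [mem_cube] at ht
  have h1 : ∀ k : Fin ν, |(s k.succ : ℝ) / T - t k| ≤ 1 / T := by
    intro k
    obtain ⟨h2, h3⟩ := ht k
    rw [add_div] at h3
    rw [abs_le]
    constructor <;> linarith
  have h2 : (∑ k : Fin ν, |(s k.succ : ℝ) / T - t k|) ≤ ν / T := by
    refine (sum_le_sum fun k _ => h1 k).trans (le_of_eq ?_)
    rw [sum_const, card_univ, Fintype.card_fin, nsmul_eq_mul, mul_one_div]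
  have h3 : ((s 0 : ℝ) + ∑ k : Fin ν, (s k.succ : ℝ)) = m := by
    rw [← hs, Fin.sum_univ_succ]
    push_cast
    rfl
  have h4 : |(s 0 : ℝ) / T - (1 - ∑ k, t k)| ≤ (B + ν) / T := by
    have h5 : (s 0 : ℝ) / T - (1 - ∑ k, t k) = ((m : ℝ) - T) / T +
        ∑ k : Fin ν, (t k - (s k.succ : ℝ) / T) := by
      rw [sum_sub_distrib, ← sum_div, ← h3]
      field_simp
      ring
    rw [h5]
    refine (abs_add_le _ _).trans ?_
    rw [add_div]
    refine add_le_add ?_ ?_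
    · have h6 : (m : ℝ) ≤ T := by exact_mod_cast hm
      have h7 : (T : ℝ) ≤ m + B := by exact_mod_cast hB
      rw [abs_div, abs_of_nonneg hT'.le, abs_of_nonpos (by linarith)]
      exact div_le_div_of_nonneg_right (by linarith) hT'.le
    · refine (abs_sum_le_sum_abs _ _).trans ?_
      refine le_trans (le_of_eq ?_) h2
      exact sum_congr rfl fun k _ => abs_sub_comm _ _
  rw [Fin.sum_univ_succ, bar_zero]
  simp only [bar_succ]
  have h6 : ((B : ℝ) + 2 * ν) / T = (B + ν) / T + ν / T := by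
    rw [← add_div]
    congr 1
    ring
  rw [h6]
  exact add_le_add h4 h2

lemma cube_sub {ν : ℕ} {T m : ℕ} (hT : 0 < T) (hm : m ≤ T)
    {s : Fin (ν + 1) → ℕ} (hs : ∑ k, s k = m) :
    cube (ν := ν) (T : ℝ) s ⊆ sxc ν (1 + ν / T) := by
  intro t ht
  rw [mem_cube] at ht
  have hT' : (0 : ℝ) < T := by exact_mod_cast hT
  refine ⟨fun i => (div_nonneg (Nat.cast_nonneg _) hT'.le).trans (ht i).1, ?_⟩
  have h1 : ∑ i, t i ≤ ∑ i : Fin ν, ((s i.succ : ℝ) + 1) / T :=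
    sum_le_sum fun i _ => (ht i).2.le
  refine h1.trans ?_
  rw [← sum_div, sum_add_distrib, sum_const, card_univ, Fintype.card_fin, nsmul_eq_mul, mul_one,
    add_div]
  have h3 : ((s 0 : ℝ) + ∑ k : Fin ν, (s k.succ : ℝ)) = m := by
    rw [← hs, Fin.sum_univ_succ]
    push_cast
    rfl
  have h4 : (m : ℝ) ≤ T := by exact_mod_cast hm
  have h5 : (0 : ℝ) ≤ s 0 := Nat.cast_nonneg _
  refine add_le_add ?_ le_rfl
  rw [div_le_one hT']
  linarith

/-- the upper bound -/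
theorem riem_upper {ν : ℕ} {T m B : ℕ} (hT : 0 < T) (hm : m ≤ T) (hB : T ≤ m + B)
    (A : Finset (Fin (ν + 1) → ℕ)) (hA : ∀ s ∈ A, ∑ k, s k = m) (F : (Fin (ν + 1) → ℝ) → ℝ)
    (M : ℝ) (hM : 0 ≤ M) (hF0 : ∀ u, 0 ≤ F u) (hFc : Continuous F)
    (hFl : ∀ u u', F u ≤ F u' + M * ∑ k, |u k - u' k|)
    (hFb : ∀ t ∈ sxc ν (1 + ν / T), F (bar t) ≤ 2 * M) :
    ∑ s ∈ A, F (fun k => (s k : ℝ) / T) * (1 / (T : ℝ)) ^ ν ≤
      (∫ t in sxc ν 1, F (bar t)) + (2 * ((1 + (ν : ℝ) / T) ^ ν - 1) +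
        (B + 2 * ν) / T * (1 + (ν : ℝ) / T) ^ ν) * M * volume.real (sxc ν 1) := by
  have hT' : (0 : ℝ) < T := by exact_mod_cast hT
  set δ : ℝ := M * ((B + 2 * ν) / T) with hδ
  have hδ0 : 0 ≤ δ := by positivity
  set c : ℝ := 1 + (ν : ℝ) / T with hc
  have hc1 : 1 ≤ c := by
    rw [hc]
    have : (0 : ℝ) ≤ (ν : ℝ) / T := by positivity
    linarith
  set g : (Fin ν → ℝ) → ℝ := fun t => F (bar t) + δ with hg
  have hgc : Continuous g := (hFc.comp continuous_bar).add continuous_const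
  have hg0 : ∀ t, 0 ≤ g t := fun t => add_nonneg (hF0 _) hδ0
  have hgi : IntegrableOn g (sxc ν c) := hgc.continuousOn.integrableOn_compact (isCompact_sxc ν c)
  have hFi : ∀ c, IntegrableOn (fun t => F (bar t)) (sxc ν c) := fun c =>
    (hFc.comp continuous_bar).continuousOn.integrableOn_compact (isCompact_sxc ν c)
  have h1 : ∀ s ∈ A, F (fun k => (s k : ℝ) / T) * (1 / (T : ℝ)) ^ ν ≤
      ∫ t in cube (T : ℝ) s, g t := by
    intro s hs
    have h2 : F (fun k => (s k : ℝ) / T) * (1 / (T : ℝ)) ^ ν =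
        ∫ _t in cube (ν := ν) (T : ℝ) s, F (fun k => (s k : ℝ) / T) := by
      rw [setIntegral_const, vol_cube hT', smul_eq_mul, mul_comm]
    rw [h2]
    refine setIntegral_mono_on ?_ (hgi.mono_set (cube_sub hT hm (hA s hs))) (meas_cube _ _)
      fun t ht => ?_
    · exact integrableOn_const (vol_cube_ne _ _)
    · refine (hFl _ (bar t)).trans ?_
      have h3 := mul_le_mul_of_nonneg_left (cube_dist hT hm hB (hA s hs) ht) hM
      simp only [hg]
      linarith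
  refine (sum_le_sum h1).trans ?_
  rw [← integral_biUnion_finset A (fun s _ => meas_cube _ _) (fun s hs s' hs' hne =>
    cube_disj hT' (hA s hs) (hA s' hs') hne) (fun s hs => hgi.mono_set (cube_sub hT hm (hA s hs)))]
  have h2 : ∫ t in ⋃ s ∈ A, cube (T : ℝ) s, g t ≤ ∫ t in sxc ν c, g t := by
    refine setIntegral_mono_set hgi (Filter.Eventually.of_forall hg0) ?_
    exact (Set.iUnion₂_subset fun s hs => cube_sub hT hm (hA s hs)).eventuallyLE
  refine h2.trans ?_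
  have hcp : (0 : ℝ) < c := by linarith
  have hsub : sxc ν 1 ⊆ sxc ν c := fun t ht => ⟨ht.1, ht.2.trans hc1⟩
  have h3 : ∫ t in sxc ν c, g t = (∫ t in sxc ν c, F (bar t)) + δ * volume.real (sxc ν c) := by
    simp only [hg]
    rw [integral_add (hFi c) (integrableOn_const (vol_fin ν c)), setIntegral_const, smul_eq_mul,
      mul_comm δ]
  have h4 : ∫ t in sxc ν c, F (bar t) = (∫ t in sxc ν 1, F (bar t)) +
      ∫ t in sxc ν c \ sxc ν 1, F (bar t) := by
    rw [← setIntegral_union Set.disjoint_sdiff_right ((meas_sxc ν c).diff (meas_sxc ν 1)) (hFi 1)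
      ((hFi c).mono_set Set.sdiff_subset), Set.union_sdiff_cancel hsub]
  have h5 : ∫ t in sxc ν c \ sxc ν 1, F (bar t) ≤ 2 * M * volume.real (sxc ν c \ sxc ν 1) := by
    have h6 : ∫ t in sxc ν c \ sxc ν 1, F (bar t) ≤ ∫ _t in sxc ν c \ sxc ν 1, 2 * M := by
      refine setIntegral_mono_on ((hFi c).mono_set Set.sdiff_subset) (integrableOn_const ?_)
        ((meas_sxc ν c).diff (meas_sxc ν 1)) fun t ht => hFb t ht.1
      exact (measure_mono Set.sdiff_subset).trans_lt (vol_fin ν c).lt_top |>.ne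
    refine h6.trans (le_of_eq ?_)
    rw [setIntegral_const, smul_eq_mul, mul_comm]
  have h6 : volume.real (sxc ν c \ sxc ν 1) = volume.real (sxc ν c) - volume.real (sxc ν 1) :=
    measureReal_sdiff hsub (meas_sxc ν 1) (vol_fin ν c)
  rw [h3, h4]
  rw [h6] at h5
  rw [vol_smul ν hcp] at h5 ⊢
  have e1 : (2 * (c ^ ν - 1) + (B + 2 * ν) / T * c ^ ν) * M * volume.real (sxc ν 1) =
      2 * M * (c ^ ν * volume.real (sxc ν 1) - volume.real (sxc ν 1)) +
      δ * (c ^ ν * volume.real (sxc ν 1)) := by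
    rw [hδ]
    ring
  rw [e1]
  linarith

/-- the lower bound -/
theorem riem_lower {ν : ℕ} {T m : ℕ} (hT : 0 < T) (hm : 0 < m)
    (A : Finset (Fin (ν + 1) → ℕ)) (hA : ∀ s : Fin (ν + 1) → ℕ, ∑ k, s k = m → s ∈ A) :
    ((m : ℝ) / T) ^ ν * volume.real (sxc ν 1) ≤ A.card * (1 / (T : ℝ)) ^ ν := by
  have hT' : (0 : ℝ) < T := by exact_mod_cast hT
  have hm' : (0 : ℝ) < m := by exact_mod_cast hm
  rw [← vol_smul ν (by positivity)]
  have h1 : sxc ν ((m : ℝ) / T) ⊆ ⋃ s ∈ A, cube (T : ℝ) s := by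
    rintro t ⟨ht1, ht2⟩
    have h2 : ∑ k, ⌊T * t k⌋₊ ≤ m := by
      have h3 : ((∑ k, ⌊T * t k⌋₊ : ℕ) : ℝ) ≤ m := by
        push_cast
        refine (sum_le_sum fun k _ => Nat.floor_le (mul_nonneg hT'.le (ht1 k))).trans ?_
        rw [← mul_sum]
        have := mul_le_mul_of_nonneg_left ht2 hT'.le
        rwa [mul_div_cancel₀ _ hT'.ne'] at this
      exact_mod_cast h3
    refine Set.mem_iUnion₂.2 ⟨Fin.cons (m - ∑ k, ⌊T * t k⌋₊) fun k => ⌊T * t k⌋₊, hA _ ?_, ?_⟩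
    · rw [Fin.sum_univ_succ]
      simp only [Fin.cons_zero, Fin.cons_succ]
      omega
    · rw [mem_cube]
      intro k
      rw [Fin.cons_succ, div_le_iff₀ hT', lt_div_iff₀ hT', mul_comm (t k)]
      exact ⟨Nat.floor_le (mul_nonneg hT'.le (ht1 k)), Nat.lt_floor_add_one _⟩
  have h2 : volume.real (⋃ s ∈ A, cube (ν := ν) (T : ℝ) s) ≤
      ∑ s ∈ A, volume.real (cube (ν := ν) (T : ℝ) s) := measureReal_biUnion_finset_le _ _
  have h3 : ∑ s ∈ A, volume.real (cube (ν := ν) (T : ℝ) s) = A.card * (1 / (T : ℝ)) ^ ν := by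
    rw [sum_congr rfl fun s _ => vol_cube hT' s, sum_const, nsmul_eq_mul]
  rw [h3] at h2
  refine le_trans (measureReal_mono h1 ?_) h2
  refine ((measure_biUnion_finset_le _ _).trans_lt ?_).ne
  exact ENNReal.sum_lt_top.2 fun s _ => (vol_cube_ne _ _).lt_top

end Pool.Agent.H430.Ot
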